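import Pool.Agent.H125Z.CC.Fam

/-!
Every countable poset is represented by cubic cyclically five edge connected graphs ordered by the
existence of cycle-continuous maps. The definitions are those of the file `InfiniteAntichain`.

Construction. Rings of cores (with one family of ports left as semi-edges) are attached to a path;
many copies of this graph are joined along a Latin square, which gives a cubic cyclically five edge
connected graph that maps to and from the graph with semi-edges. A ring of length `a` maps into such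
a graph only if the length of one of its rings divides `a`.
-/

set_option autoImplicit false

namespace Pool.Agent.Results.MP_75ff39_co.AUniversal

open Finset
open Pool.Agent.Results.MP_75ff39_co.InfiniteAntichain
open Pool.Agent.H125Z.CC

universe u

lemma exists_family (r : ℕ → ℕ → Prop) (hrefl : ∀ i, r i i)
    (htrans : ∀ i j k, r i j → r j k → r i k) (h0 : ∀ j, r 0 j) :
    ∃ H : ℕ → DS, (∀ n, 1 ≤ n → (H n).Nice) ∧ (∀ n, Nonempty (H n).V) ∧
      ∀ n m, DS.Hom (H n) (H m) ↔ r n m := by
  classical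
  let q : ℕ → ℕ := fun j => Nat.nth Nat.Prime (j + 11)
  have hq : ∀ j, (q j).Prime := fun j => Nat.prime_nth_prime _
  have hq13 : ∀ j, 13 ≤ q j := fun j => by
    have := Nat.add_two_le_nth_prime (j + 11)
    simp only [q]
    omega
  have hqi : ∀ i j, q i = q j → i = j := fun i j h => by
    have := Nat.nth_injective Nat.infinite_setOfPred_prime h
    omega
  let a : ℕ → ℕ := fun i => ∏ j ∈ range (i + 1) with r i j, q j
  have hpos : ∀ i, 0 < a i := fun i => Finset.prod_pos fun j _ => (hq j).pos
  have hdvd : ∀ i, q i ∣ a i := fun i =>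
    Finset.dvd_prod_of_mem _ (by simp [hrefl])
  have ha : ∀ i, 13 ≤ a i := fun i => (hq13 i).trans (Nat.le_of_dvd (hpos i) (hdvd i))
  have : ∀ i, NeZero (a i) := fun i => ⟨(hpos i).ne'⟩
  refine ⟨fun n => HH a (fun k => r k n) n,
    fun n hn => HH_nice a _ n ha (h0 n) (hrefl n) hn, fun n => ⟨Sum.inl 0⟩, fun n m => ⟨?_, ?_⟩⟩
  · intro h
    obtain ⟨j, -, hj, hd⟩ := dvd_of_hom a (fun k => r k m) m (fun i => by have := ha i; omega)
      (a n) ((hom_ring a (fun k => r k n) n ⟨Fin.last n, hrefl n⟩).trans h)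
    obtain ⟨i, hi, hi'⟩ := ((hq j).prime.dvd_finsetProd_iff _).1 ((hdvd j).trans hd)
    obtain rfl := hqi _ _ ((Nat.prime_dvd_prime_iff_eq (hq j) (hq i)).1 hi')
    exact htrans _ _ _ (Finset.mem_filter.1 hi).2 hj
  · intro h
    refine hom_HH a _ n _ m fun i _ hi => ?_
    rcases le_total i m with g | g
    · rw [min_eq_left g]
      exact ⟨htrans _ _ _ hi h, dvd_rfl⟩
    · rw [min_eq_right g]
      refine ⟨hrefl m, Finset.prod_dvd_prod_of_subset _ _ _ fun j hj => ?_⟩
      simp only [Finset.mem_filter, Finset.mem_range] at hj ⊢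
      exact ⟨by omega, htrans _ _ _ hi (htrans _ _ _ h hj.2)⟩

/-- For `k = 4` and for `k = 5` the class `𝒞ₖ` contains every countable poset. -/
theorem result : ∀ k : ℕ, k = 4 ∨ k = 5 → ∀ (P : Type u) [PartialOrder P] [Countable P],
    ∃ G : P → MultiGraph, (∀ p, (G p).InClass k) ∧ ∀ p q, (G p).Le (G q) ↔ p ≤ q := by
  intro k hk P _ _
  obtain ⟨enc, henc⟩ := Countable.exists_injective_nat P
  obtain ⟨H, hH, hV, hhom⟩ := exists_family
    (fun i j => i = 0 ∨ i = j ∨ ∃ p q, enc p + 1 = i ∧ enc q + 1 = j ∧ p ≤ q)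
    (fun i => Or.inr (Or.inl rfl)) (by
      rintro i j l (h | rfl | ⟨p, q, rfl, rfl, h⟩) h'
      · exact Or.inl h
      · exact h'
      · rcases h' with h' | rfl | ⟨p', q', h1, rfl, h'⟩
        · omega
        · exact Or.inr (Or.inr ⟨p, q, rfl, rfl, h⟩)
        · obtain rfl : p' = q := henc (by omega)
          exact Or.inr (Or.inr ⟨p, q', rfl, rfl, h.trans h'⟩))
    (fun j => Or.inl rfl)
  have hN : ∀ p, (H (enc p + 1)).Nice := fun p => hH _ (by omega)
  have : ∀ p, NeZero (H (enc p + 1)).ns := fun p => ⟨by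
    have : 13 ≤ (H (enc p + 1)).ns := (hN p).many
    omega⟩
  refine ⟨fun p => ((H (enc p + 1)).cover (hN p).semi_inj).toMG
    ((H (enc p + 1)).cover_closed (hN p).semi_inj), fun p => ?_, fun p q => ?_⟩
  · have h5 := DS.cover_cut5 (hN p)
    obtain ⟨v⟩ := hV (enc p + 1)
    exact ⟨DS.cubic _, conn_of_cut5 (DS.simpleMG _) h5 (DS.cubic _) ⟨(v, (0, false))⟩,
      cyc_of_cut5 (DS.simpleMG _) h5 k (by omega)⟩
  · constructor
    · intro h
      have h1 := DS.hom_of_le _ _ (DS.cover_cut5 (hN q)) (DS.cover_even _ _) h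
      have h2 := (hhom _ _).1
        (((DS.hom_cover _ (hN p).semi_inj).trans h1).trans (DS.cover_hom _ (hN q).semi_inj))
      rcases h2 with h2 | h2 | ⟨p', q', h3, h4, h2⟩
      · omega
      · exact le_of_eq (henc (by omega))
      · obtain rfl : p' = p := henc (by omega)
        obtain rfl : q' = q := henc (by omega)
        exact h2
    · intro h
      exact DS.le_of_hom _ _ (((DS.cover_hom _ (hN p).semi_inj).trans
        ((hhom _ _).2 (Or.inr (Or.inr ⟨p, q, rfl, rfl, h⟩)))).trans
          (DS.hom_cover _ (hN q).semi_inj))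

end Pool.Agent.Results.MP_75ff39_co.AUniversal
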